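import Pool.Agent.Helper92.Ru.GoalsH

/-!
# H15: assembly of the approximation part
-/

set_option autoImplicit false

open NumberField MvPolynomial

namespace Pool.Agent.Helper12.Ru

open Pool.Agent.Helper92.Ru

theorem fin_span {k V : Type*} [Field k] [AddCommGroup V] [Module k V] (P0 : Set V)
    (hP0 : P0.Finite) :
    {W : Submodule k V | W ≤ Submodule.span k {x | x ∈ W ∧ x ∈ P0}}.Finite := by
  refine Set.Finite.of_finite_image (f := fun W : Submodule k V => {x | x ∈ W ∧ x ∈ P0})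
    (hP0.finite_subsets.subset ?_) ?_
  · rintro _ ⟨W, _, rfl⟩ x hx
    exact hx.2
  · intro W hW W' hW' h
    have e1 : W = Submodule.span k {x | x ∈ W ∧ x ∈ P0} :=
      le_antisymm hW (Submodule.span_le.2 fun x hx => hx.1)
    have e2 : W' = Submodule.span k {x | x ∈ W' ∧ x ∈ P0} :=
      le_antisymm hW' (Submodule.span_le.2 fun x hx => hx.1)
    have h' : {x | x ∈ W ∧ x ∈ P0} = {x | x ∈ W' ∧ x ∈ P0} := h
    rw [e1, h', ← e2]

/-- Large witnesses. -/
theorem large_witness (hBox : BoxFin) {k : Type} [Field k] [NumberField k]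
    {T : Finset (FinitePlace k)} {ι : Type} [Fintype ι] [DecidableEq ι] [Nonempty ι]
    {A : SP k T → Matrix ι ι k} (hA : ∀ v, (A v).det ≠ 0) {e : SP k T → ι → ℝ}
    (hinf : Set.Infinite {W : Submodule k (ι → k) | Module.finrank k W + 1 = Fintype.card ι ∧
      ∃ Q : ℝ, 1 ≤ Q ∧ SpannedBy A (wQ Q e) W}) {F : Set (Submodule k (ι → k))}
    (hF : F.Finite) (X : ℝ) :
    ∃ W : Submodule k (ι → k), ∃ Q : ℝ, Module.finrank k W + 1 = Fintype.card ι ∧ W ∉ F ∧
      X < Q ∧ 1 ≤ Q ∧ SpannedBy A (wQ Q e) W := by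
  have hfin : {W : Submodule k (ι → k) | W ≤ Submodule.span k {x | x ∈ W ∧ x ∈
      {x : ι → k | InBox A (fun v i => max 1 (X ^ e v i)) x}}}.Finite :=
    fin_span _ (hBox k T ι A hA _)
  obtain ⟨W, hW, hW'⟩ := (hinf.diff (hF.union hfin)).nonempty
  obtain ⟨hWr, Q, hQ, hsp⟩ := hW
  rw [Set.mem_union, not_or] at hW'
  refine ⟨W, Q, hWr, hW'.1, ?_, hQ, hsp⟩
  by_contra hX
  rw [not_lt] at hX
  apply hW'.2
  refine hsp.trans (Submodule.span_mono ?_)
  rintro x ⟨hx1, hx2⟩
  refine ⟨hx1, hx2.1, fun v i => (hx2.2 v i).trans ?_⟩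
  show Q ^ e v i ≤ max 1 (X ^ e v i)
  rcases le_total 0 (e v i) with h0 | h0
  · exact le_max_of_le_right (Real.rpow_le_rpow (by linarith) hX h0)
  · exact le_max_of_le_left (Real.rpow_le_one_of_one_le_of_nonpos hQ h0)

/-- The numerical choice of the degrees. -/
theorem choose_r {m : ℕ} (hm : 1 ≤ m) {ω η : ℝ} (hω : 0 < ω) (hω1 : ω ≤ 1) (hη : 0 < η)
    (q : Fin m → ℝ) (hq : ∀ h, 0 < q h) (hq2 : ∀ h h' : Fin m, h < h' → 2 / ω * q h ≤ q h') :
    ∃ (R : ℕ) (r : Fin m → ℕ), 1 ≤ R ∧ (∀ h, 1 ≤ r h ∧ r h ≤ R) ∧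
      (∀ h, R * q ⟨0, hm⟩ ≤ r h * q h ∧ r h * q h ≤ (1 + η) * (R * q ⟨0, hm⟩)) ∧
      (∀ h h' : Fin m, h < h' → (r h' : ℝ) ≤ ω * r h) := by
  have hle : ∀ h h' : Fin m, h ≤ h' → q h ≤ q h' := by
    intro h h' hh
    rcases hh.eq_or_lt with rfl | hlt
    · exact le_rfl
    · refine le_trans ?_ (hq2 h h' hlt)
      have h1 : 1 ≤ 2 / ω := by
        rw [le_div_iff₀ hω]
        linarith
      nlinarith [hq h]
  set last : Fin m := ⟨m - 1, by omega⟩ with hlast
  set z : Fin m := ⟨0, hm⟩ with hz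
  have hlelast : ∀ h : Fin m, q h ≤ q last := fun h => hle h last (by
    rw [Fin.le_def, hlast]
    show (h : ℕ) ≤ m - 1
    have := h.2
    omega)
  have hzle : ∀ h : Fin m, q z ≤ q h := fun h => hle z h (by
    rw [Fin.le_def, hz]
    show 0 ≤ (h : ℕ)
    omega)
  obtain ⟨R0, hR0⟩ := exists_nat_ge ((1 / η + 2 / ω) * q last / q z)
  set R : ℕ := R0 + 1 with hR
  have hRr : (R : ℝ) = R0 + 1 := by rw [hR]; push_cast; ring
  set L : ℝ := R * q z with hL
  have hqz := hq z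
  have hqlast := hq last
  have hLbig : (1 / η + 2 / ω) * q last ≤ L := by
    have h1 := (div_le_iff₀ hqz).1 hR0
    rw [hL, hRr]
    nlinarith
  have hη' : 0 < 1 / η := by positivity
  have hω' : 0 < 2 / ω := by positivity
  have hL1 : q last ≤ η * L := by
    have h1 : 1 / η * q last ≤ L := by nlinarith
    have h2 := mul_le_mul_of_nonneg_left h1 hη.le
    rw [← mul_assoc, mul_one_div_cancel hη.ne', one_mul] at h2
    exact h2
  have hL2 : 2 / ω * q last ≤ L := by nlinarith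
  have hLpos : 0 < L := by
    have : 0 < 2 / ω * q last := by positivity
    linarith
  refine ⟨R, fun h => ⌈L / q h⌉₊, by omega, ?_, ?_, ?_⟩
  · intro h
    have hqh := hq h
    constructor
    · exact Nat.one_le_ceil_iff.2 (by positivity)
    · refine Nat.ceil_le.2 ?_
      rw [div_le_iff₀ hqh, hL]
      exact mul_le_mul_of_nonneg_left (hzle h) (Nat.cast_nonneg _)
  · intro h
    have hqh := hq h
    have h1 : L / q h ≤ (⌈L / q h⌉₊ : ℝ) := Nat.le_ceil _
    have h2 : (⌈L / q h⌉₊ : ℝ) < L / q h + 1 := Nat.ceil_lt_add_one (by positivity)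
    constructor
    · rw [div_le_iff₀ hqh] at h1
      exact h1
    · have h3 : (⌈L / q h⌉₊ : ℝ) * q h ≤ (L / q h + 1) * q h :=
        mul_le_mul_of_nonneg_right h2.le hqh.le
      have h4 : (L / q h + 1) * q h = L + q h := by
        field_simp
      have h5 := hlelast h
      linarith
  · intro h h' hh
    have hqh := hq h
    have hqh' := hq h'
    have h1 : L / q h ≤ (⌈L / q h⌉₊ : ℝ) := Nat.le_ceil _
    have h2 : (⌈L / q h'⌉₊ : ℝ) < L / q h' + 1 := Nat.ceil_lt_add_one (by positivity)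
    have h3 : L / q h' ≤ ω / 2 * (L / q h) := by
      rw [div_le_iff₀ hqh']
      have h4 := hq2 h h' hh
      have h5 : ω / 2 * (L / q h) * (2 / ω * q h) = L := by
        field_simp
      calc L = ω / 2 * (L / q h) * (2 / ω * q h) := h5.symm
        _ ≤ ω / 2 * (L / q h) * q h' := by
            apply mul_le_mul_of_nonneg_left h4
            positivity
    have h6 : 2 / ω ≤ (⌈L / q h⌉₊ : ℝ) := by
      refine le_trans ?_ h1
      rw [le_div_iff₀ hqh]
      exact le_trans (mul_le_mul_of_nonneg_left (hlelast h) hω'.le) hL2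
    have h7 : 1 ≤ ω / 2 * (⌈L / q h⌉₊ : ℝ) := by
      have := mul_le_mul_of_nonneg_left h6 (by positivity : (0 : ℝ) ≤ ω / 2)
      have h8 : ω / 2 * (2 / ω) = 1 := by field_simp
      linarith
    have h9 : ω / 2 * (L / q h) ≤ ω / 2 * (⌈L / q h⌉₊ : ℝ) :=
      mul_le_mul_of_nonneg_left h1 (by positivity)
    linarith

theorem htasm : HTasm := by
  intro hAux hVan hR1 hR2 hR3 hBox hXi hPH hCol hLow hRoth
  intro k _ _ T ι _ _ _ A hA hN e he
  by_contra hinf
  have hinf' : Set.Infinite {W : Submodule k (ι → k) | Module.finrank k W + 1 = Fintype.card ι ∧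
      ∃ Q : ℝ, 1 ≤ Q ∧ SpannedBy A (wQ Q e) W} := hinf
  obtain ⟨ε, η, hε, hη, hV⟩ := hVan k T ι A hA e he
  obtain ⟨m0, hm0⟩ := hAux k T ι A hA ε hε
  set m : ℕ := max m0 1 with hm
  have hm1 : 1 ≤ m := le_max_right _ _
  have hmpos : (0 : ℝ) < m := by exact_mod_cast hm1
  obtain ⟨ω, CR, hω, hω1, hCR, hroth⟩ := hRoth m k (m * ε / 2) (by positivity)
  obtain ⟨Ca, hCa, haux⟩ := hm0 m (le_max_left _ _)
  set C : ℝ := Ca + ∑ v, ∑ i, ∑ j, nS v (A v i j) with hC
  have hsum0 : 0 ≤ ∑ v, ∑ i, ∑ j, nS v (A v i j) :=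
    Finset.sum_nonneg fun v _ => Finset.sum_nonneg fun i _ => Finset.sum_nonneg fun j _ =>
      nS_nonneg v _
  have hCaC : Ca ≤ C := by linarith
  have hC1 : 1 ≤ C := hCa.trans hCaC
  have hAC : ∀ v i j, nS v (A v i j) ≤ C := by
    intro v i j
    have h1 : nS v (A v i j) ≤ ∑ j, nS v (A v i j) :=
      Finset.single_le_sum (f := fun j => nS v (A v i j)) (fun j _ => nS_nonneg v _)
        (Finset.mem_univ j)
    have h2 : ∑ j, nS v (A v i j) ≤ ∑ i, ∑ j, nS v (A v i j) :=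
      Finset.single_le_sum (f := fun i => ∑ j, nS v (A v i j))
        (fun i _ => Finset.sum_nonneg fun j _ => nS_nonneg v _) (Finset.mem_univ i)
    have h3 : ∑ i, ∑ j, nS v (A v i j) ≤ ∑ v, ∑ i, ∑ j, nS v (A v i j) :=
      Finset.single_le_sum (f := fun v => ∑ i, ∑ j, nS v (A v i j))
        (fun v _ => Finset.sum_nonneg fun i _ => Finset.sum_nonneg fun j _ => nS_nonneg v _)
        (Finset.mem_univ v)
    linarith
  obtain ⟨Q1, hQ1, hvan⟩ := hV m C hm1 hC1
  obtain ⟨c, Q1', F, hc, hQ1', hF, hlow⟩ := hLow k T ι A hA hN e he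
  set D : ℕ := Module.finrank ℚ k with hD
  set E : ℝ := ((Fintype.card ι : ℝ) - 1) * CR * (D * m * Real.log Ca + 1) / c + 1 with hE
  have hNr : (2 : ℝ) ≤ Fintype.card ι := by exact_mod_cast hN
  have hlogCa : 0 ≤ Real.log Ca := Real.log_nonneg hCa
  have hE1 : 1 ≤ E := by
    rw [hE]
    have : 0 ≤ ((Fintype.card ι : ℝ) - 1) * CR * (D * m * Real.log Ca + 1) / c := by
      apply div_nonneg _ hc.le
      apply mul_nonneg (mul_nonneg (by linarith) hCR.le)
      positivity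
    linarith
  set Qb : ℝ := max (max Q1 Q1') (Real.exp E) with hQb
  -- the witnesses
  have hex : ∀ X : ℝ, ∃ p : Submodule k (ι → k) × ℝ, Module.finrank k p.1 + 1 =
      Fintype.card ι ∧ p.1 ∉ F ∧ X < p.2 ∧ 1 ≤ p.2 ∧ SpannedBy A (wQ p.2 e) p.1 := by
    intro X
    obtain ⟨W, Q, h⟩ := large_witness hBox hA hinf' hF X
    exact ⟨(W, Q), h⟩
  choose f hf using hex
  let X : ℕ → ℝ := fun n => Nat.rec Qb (fun _ x => Real.exp (2 / ω * Real.log (f x).2)) n
  have hX0 : X 0 = Qb := rfl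
  have hXs : ∀ n, X (n + 1) = Real.exp (2 / ω * Real.log (f (X n)).2) := fun n => rfl
  have hlog1 : ∀ n, 2 / ω * Real.log (f (X n)).2 ≤ Real.log (f (X (n + 1))).2 := by
    intro n
    have h1 := (hf (X (n + 1))).2.2.1
    rw [hXs] at h1
    have h2 := Real.log_le_log (Real.exp_pos _) h1.le
    rwa [Real.log_exp] at h2
  have hlogb : E ≤ Real.log (f (X 0)).2 := by
    have h1 := (hf (X 0)).2.2.1
    have h2 : Real.exp E ≤ (f (X 0)).2 := by
      refine le_trans ?_ h1.le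
      rw [hX0]
      exact le_max_right _ _
    have h3 := Real.log_le_log (Real.exp_pos _) h2
    rwa [Real.log_exp] at h3
  have h2ω : 1 ≤ 2 / ω := by
    rw [le_div_iff₀ hω]
    linarith
  have hlogE : ∀ n, E ≤ Real.log (f (X n)).2 := by
    intro n
    induction n with
    | zero => exact hlogb
    | succ n ih =>
      refine le_trans ?_ (hlog1 n)
      nlinarith
  have hlogpos : ∀ n, 0 < Real.log (f (X n)).2 := fun n => by
    have := hlogE n
    linarith
  have hmono : ∀ n n', n ≤ n' → Real.log (f (X n)).2 ≤ Real.log (f (X n')).2 := by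
    intro n n' h
    induction n', h using Nat.le_induction with
    | base => exact le_rfl
    | succ n' _ ih =>
      refine ih.trans (le_trans ?_ (hlog1 n'))
      nlinarith [hlogpos n']
  have hlog2 : ∀ n n', n < n' → 2 / ω * Real.log (f (X n)).2 ≤ Real.log (f (X n')).2 :=
    fun n n' h => (hlog1 n).trans (hmono (n + 1) n' h)
  -- the sequences
  let W : Fin m → Submodule k (ι → k) := fun h => (f (X h)).1
  let Q : Fin m → ℝ := fun h => (f (X h)).2
  have hQge : ∀ h, 1 ≤ Q h := fun h => (hf (X h)).2.2.2.1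
  have hQb' : ∀ h, Qb ≤ Q h := by
    intro h
    have h0 : Qb ≤ (f (X 0)).2 := by
      have := (hf (X 0)).2.2.1
      rw [hX0] at this
      rw [hX0]
      exact this.le
    have hpos0 : 0 < (f (X 0)).2 := lt_of_lt_of_le one_pos (hf (X 0)).2.2.2.1
    have hposh : 0 < (f (X h)).2 := lt_of_lt_of_le one_pos (hf (X h)).2.2.2.1
    have h1 := hmono 0 h (Nat.zero_le _)
    exact h0.trans ((Real.log_le_log_iff hpos0 hposh).1 h1)
  obtain ⟨R, r, hR1', hrR, hrL, hrω⟩ := choose_r hm1 hω hω1 hη (fun h => Real.log (Q h))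
    (fun h => hlogpos h) (fun h h' hh => hlog2 h h' hh)
  set z : Fin m := ⟨0, hm1⟩ with hz
  obtain ⟨P, hP0, hPr, hPint, hPinf, hPgood⟩ := haux r (fun h => (hrR h).1)
  -- adapted matrices
  have hcol : ∀ h : Fin m, ∃ (B : Matrix ι ι k) (st i0 : ι), B.det ≠ 0 ∧
      (∀ i j, SInt T (B i j)) ∧
      (∀ v i j, j ≠ st → nS v ((A v * B) i j) ≤ (wQ (Q h) e) v i) ∧
      (∀ i, B i st = if i = i0 then 1 else 0) ∧
      (∀ j, j ≠ st → (fun i => B i j) ∈ W h) ∧
      (∀ x ∈ W h, ∑ i, B⁻¹ st i * x i = 0) ∧ B⁻¹ st ≠ 0 := fun h =>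
    hCol k T ι A (wQ (Q h) e) (W h) (hf (X h)).1 (hf (X h)).2.2.2.2
  choose B st i0 hBdet hBint hBbd hBst _ hBann hBne using hcol
  have hQ1Q : ∀ h, Q1 ≤ Q h := fun h =>
    ((le_max_left _ _).trans (le_max_left _ _)).trans (hQb' h)
  have hQ1Q' : ∀ h, Q1' ≤ Q h := fun h =>
    ((le_max_right _ _).trans (le_max_left _ _)).trans (hQb' h)
  have hRpos : (0 : ℝ) < R := by exact_mod_cast hR1'
  have hind : ∀ K ∈ (subM B P).support, (m : ℝ) * ε ≤ ∑ h, (K (h, st h) : ℝ) / (r h : ℝ) := by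
    refine hvan r R Q (R * Real.log (Q z)) P hrR hQ1Q ?_ hrL hPr hPint ?_ hPgood B st hBint
      ?_ ?_
    · apply mul_le_mul_of_nonneg_left _ hRpos.le
      exact Real.log_le_log (by linarith) (hQ1Q z)
    · intro v e'
      exact (hPinf v e').trans (pow_le_pow_left₀ (by linarith) hCaC _)
    · intro h v i j hj
      exact hBbd h v i j hj
    · intro h v i
      have h1 : (A v * B h) i (st h) = A v i (i0 h) := by
        rw [Matrix.mul_apply]
        simp only [hBst h]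
        simp
      rw [h1]
      exact hAC v i (i0 h)
  -- the linear forms
  let a : Fin m → ι → k := fun h => (B h)⁻¹ (st h)
  have ha0 : ∀ h, a h ≠ 0 := hBne
  have hht : ∀ h, Q h ^ c ≤ Height.mulHeight (a h) := fun h =>
    hlow (W h) (hf (X h)).2.1 (hf (X h)).1 (Q h) (hQ1Q' h) (hf (X h)).2.2.2.2 (a h) (ha0 h)
      (hBann h)
  have hxi : ∀ h, ∃ l1 l2 : ι, l1 ≠ l2 ∧ a h l1 ≠ 0 ∧
      Height.mulHeight (a h) ≤ Height.mulHeight₁ (-(a h l2) / a h l1) ^ (Fintype.card ι - 1) :=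
    fun h => hXi k ι (a h) hN (ha0 h)
  choose l1 l2 hl12 hal1 hxih using hxi
  have hind1 : IndA r a l1 (m * ε) P := hR1 k m ι r P B st l1 (m * ε) hBdet hal1 hind
  obtain ⟨r', P', hr'r, hP'0, hP'r, hP'c, hP'v, hind2⟩ :=
    hR2 k m ι r P a l1 l2 (m * ε) hP0 hPr hal1 hind1
  obtain ⟨p, hp0, hpdeg, hpc, hind3⟩ :=
    hR3 k m ι r r' P' a l1 l2 (m * ε) hP'0 hP'r hal1 hl12 hP'v hind2
  -- height of `p`
  have hpc' : ∀ e' ∈ p.support, ∃ e'', coeff e' p = coeff e'' P := by
    intro e' he'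
    obtain ⟨e1, h1⟩ := hpc e' he'
    have h2 : e1 ∈ P'.support := by
      rw [mem_support_iff, ← h1]
      exact mem_support_iff.1 he'
    obtain ⟨e2, h3⟩ := hP'c e1 h2
    exact ⟨e2, h1.trans h3⟩
  have hPHp : PH p ≤ (Ca ^ (∑ h, r h)) ^ D := by
    refine hPH k (Fin m) p (Ca ^ (∑ h, r h)) (one_le_pow₀ hCa) ?_ ?_
    · intro e' he'
      obtain ⟨e2, h2⟩ := hpc' e' he'
      obtain ⟨b, hb⟩ := hPint e2
      exact ⟨b, h2.trans hb⟩
    · intro v e' he'
      obtain ⟨e2, h2⟩ := hpc' e' he'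
      rw [h2]
      exact hPinf v e2
  have hPH1 : 1 ≤ PH p := Height.one_le_mulHeight _
  have hlogPH : Real.log (PH p) ≤ D * m * Real.log Ca * R := by
    have h1 := Real.log_le_log (by linarith) hPHp
    rw [Real.log_pow, Real.log_pow] at h1
    refine h1.trans ?_
    have h2 : ((∑ h, r h : ℕ) : ℝ) ≤ m * R := by
      have h3 : ∑ h, r h ≤ m * R := by
        calc ∑ h, r h ≤ ∑ _h : Fin m, R := Finset.sum_le_sum fun h _ => (hrR h).2
          _ = m * R := by simp
      exact_mod_cast h3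
    have h4 : ((∑ h, r h : ℕ) : ℝ) * Real.log Ca ≤ m * R * Real.log Ca :=
      mul_le_mul_of_nonneg_right h2 hlogCa
    calc (D : ℝ) * (((∑ h, r h : ℕ) : ℝ) * Real.log Ca) ≤ D * (m * R * Real.log Ca) :=
          mul_le_mul_of_nonneg_left h4 (Nat.cast_nonneg _)
      _ = D * m * Real.log Ca * R := by ring
  -- heights of the points
  have hN1 : (0 : ℝ) < (Fintype.card ι : ℝ) - 1 := by linarith
  have hlogxi : ∀ h, c * Real.log (Q h) ≤
      ((Fintype.card ι : ℝ) - 1) * Height.logHeight₁ (-(a h (l2 h)) / a h (l1 h)) := by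
    intro h
    have hQpos : 0 < Q h := by linarith [hQge h]
    have h1 := (hht h).trans (hxih h)
    have h2 := Real.log_le_log (Real.rpow_pos_of_pos hQpos c) h1
    rw [Real.log_rpow hQpos, Real.log_pow] at h2
    rw [Nat.cast_sub (by omega), Nat.cast_one] at h2
    exact h2
  have hfinal : ∀ h, CR * (Real.log (PH p) + R) ≤
      r h * Height.logHeight₁ (-(a h (l2 h)) / a h (l1 h)) := by
    intro h
    have hrh : (0 : ℝ) < r h := by exact_mod_cast (hrR h).1
    have h1 := (hrL h).1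
    have h2 := hlogxi h
    have h3 : E ≤ Real.log (Q z) := hlogE 0
    -- `(N-1) CR (D m log Ca + 1) / c ≤ log Q_0`
    have h4 : ((Fintype.card ι : ℝ) - 1) * CR * (D * m * Real.log Ca + 1) ≤
        c * Real.log (Q z) := by
      have h5 : ((Fintype.card ι : ℝ) - 1) * CR * (D * m * Real.log Ca + 1) / c ≤
          Real.log (Q z) := by linarith
      rw [div_le_iff₀ hc] at h5
      linarith
    have h6 : c * (R * Real.log (Q z)) ≤
        r h * (((Fintype.card ι : ℝ) - 1) * Height.logHeight₁ (-(a h (l2 h)) / a h (l1 h))) := by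
      calc c * (R * Real.log (Q z)) ≤ c * (r h * Real.log (Q h)) :=
            mul_le_mul_of_nonneg_left h1 hc.le
        _ = r h * (c * Real.log (Q h)) := by ring
        _ ≤ _ := mul_le_mul_of_nonneg_left h2 hrh.le
    have h7 : ((Fintype.card ι : ℝ) - 1) * (CR * (Real.log (PH p) + R)) ≤
        ((Fintype.card ι : ℝ) - 1) *
          (r h * Height.logHeight₁ (-(a h (l2 h)) / a h (l1 h))) := by
      calc ((Fintype.card ι : ℝ) - 1) * (CR * (Real.log (PH p) + R))
          ≤ ((Fintype.card ι : ℝ) - 1) * (CR * (D * m * Real.log Ca * R + R)) := by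
            apply mul_le_mul_of_nonneg_left _ hN1.le
            apply mul_le_mul_of_nonneg_left _ hCR.le
            linarith
        _ = (((Fintype.card ι : ℝ) - 1) * CR * (D * m * Real.log Ca + 1)) * R := by ring
        _ ≤ c * Real.log (Q z) * R := mul_le_mul_of_nonneg_right h4 hRpos.le
        _ = c * (R * Real.log (Q z)) := by ring
        _ ≤ _ := h6
        _ = _ := by ring
    exact le_of_mul_le_mul_left h7 hN1
  have hcon := hroth r R (fun h => -(a h (l2 h)) / a h (l1 h)) p (m * ε) hp0 hrR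
    (fun h => (hpdeg h).trans (hr'r h)) hrω hfinal hind3
  have : 0 < (m : ℝ) * ε := by positivity
  linarith

end Pool.Agent.Helper12.Ru
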